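import Pool.Agent.Q215.MB.Final
import Pool.Agent.Q91.MB.Ta

/-!
# Infinitely many minimal Borel sets in the Wadge order on the real line

There are infinitely many pairwise incomparable minimal Borel subsets of the real line. The
definitions are in `Pool/Agent/Q215/MB/Defs.lean`.
-/

set_option autoImplicit false

namespace Pool.Agent.Results.MP_fd8bd4_lc.InfinitelyManyMinimalSets

open Pool.Agent.Q215.MB

/-- There is an infinite sequence of minimal Borel subsets of the real line which are pairwise
incomparable for continuous reducibility on the real line. -/
theorem result : ∃ A : ℕ → Set ℝ, (∀ n, MinimalBorel (A n)) ∧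
    ∀ m n, m ≠ n → ¬ Red (A m) (A n) :=
  final' Pool.Agent.Q91.MB.Ta.t_Ta

end Pool.Agent.Results.MP_fd8bd4_lc.InfinitelyManyMinimalSets
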